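import Pool.Agent.Helper6.EC_B.Goals

/-! # CV4: the substitution `v = 2 + 2 cosh u` -/

set_option autoImplicit false

open MeasureTheory Filter Topology Set

namespace EC237.PB.PkCV4

theorem image_eq : (fun u : ℝ => 2 + 2 * Real.cosh u) '' Ioi 0 = Ioi 4 := by
  ext v
  constructor
  · rintro ⟨u, hu, rfl⟩
    have h1 : 1 < Real.cosh u := Real.one_lt_cosh.2 (ne_of_gt hu)
    simp only [mem_Ioi]
    linarith
  · intro hv
    have hv4 : (4 : ℝ) < v := hv
    have h1 : 1 < v / 2 - 1 := by linarith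
    have h2 : 0 < (v / 2 - 1) ^ 2 - 1 := by nlinarith
    refine ⟨Real.arsinh (Real.sqrt ((v / 2 - 1) ^ 2 - 1)), ?_, ?_⟩
    · exact Real.arsinh_pos_iff.2 (Real.sqrt_pos.2 h2)
    · simp only
      rw [Real.cosh_arsinh, Real.sq_sqrt h2.le]
      have h3 : (1 : ℝ) + ((v / 2 - 1) ^ 2 - 1) = (v / 2 - 1) ^ 2 := by ring
      rw [h3, Real.sqrt_sq (by linarith)]
      ring

theorem thm : G_CV4 := by
  intro F
  rw [← image_eq]
  have hd : ∀ u ∈ Ioi (0 : ℝ), HasDerivWithinAt (fun u : ℝ => 2 + 2 * Real.cosh u)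
      (2 * Real.sinh u) (Ioi 0) u := fun u _ =>
    (((Real.hasDerivAt_cosh u).const_mul 2).const_add 2).hasDerivWithinAt
  have hinj : InjOn (fun u : ℝ => 2 + 2 * Real.cosh u) (Ioi 0) := by
    intro a ha b hb hab
    have h1 : Real.cosh a = Real.cosh b := by
      have : 2 + 2 * Real.cosh a = 2 + 2 * Real.cosh b := hab
      linarith
    exact Real.cosh_strictMonoOn.injOn (mem_Ici.2 (le_of_lt ha)) (mem_Ici.2 (le_of_lt hb)) h1
  rw [integral_image_eq_integral_abs_deriv_smul measurableSet_Ioi hd hinj]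
  refine setIntegral_congr_fun measurableSet_Ioi fun u hu => ?_
  have hs : 0 < Real.sinh u := Real.sinh_pos_iff.2 hu
  have h1 : (2 + 2 * Real.cosh u) * (2 + 2 * Real.cosh u - 4) = (2 * Real.sinh u) ^ 2 := by
    have := Real.cosh_sq u
    nlinarith
  simp only [smul_eq_mul]
  rw [h1, Real.sqrt_sq (by positivity), abs_of_pos (by positivity)]
  field_simp

end EC237.PB.PkCV4
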